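import Pool.Agent.Lib.helper3.ExpMax

namespace Pool.Agent.Results.MP_2ee812_an.Four

/-- The inequality `(∑ aᵢ⁻²)^(1/2) ≤ S₄(a)` for four positive reals. -/
theorem result (a b c d : ℝ) (ha : 0 < a) (hb : 0 < b) (hc : 0 < c) (hd : 0 < d) :
    √((a ^ 2)⁻¹ + (b ^ 2)⁻¹ + (c ^ 2)⁻¹ + (d ^ 2)⁻¹) ≤
      (a⁻¹ + b⁻¹ + c⁻¹ + d⁻¹)
        - ((a + b)⁻¹ + (a + c)⁻¹ + (a + d)⁻¹ + (b + c)⁻¹ + (b + d)⁻¹ + (c + d)⁻¹)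
        + ((a + b + c)⁻¹ + (a + b + d)⁻¹ + (a + c + d)⁻¹ + (b + c + d)⁻¹)
        - (a + b + c + d)⁻¹ := by
  obtain ⟨x, hx, rfl⟩ : ∃ x, 0 < x ∧ a = d * x := ⟨a / d, by positivity, by field_simp⟩
  obtain ⟨y, hy, rfl⟩ : ∃ y, 0 < y ∧ b = d * y := ⟨b / d, by positivity, by field_simp⟩
  obtain ⟨z, hz, rfl⟩ : ∃ z, 0 < z ∧ c = d * z := ⟨c / d, by positivity, by field_simp⟩
  obtain ⟨S, hS⟩ : ∃ S : ℝ, S = (x)⁻¹ + (y)⁻¹ + (z)⁻¹ + (1 : ℝ)⁻¹ - (x + y)⁻¹ - (x + z)⁻¹ - (x + 1)⁻¹ - (y + z)⁻¹ - (y + 1)⁻¹ - (z + 1)⁻¹ + (x + y + z)⁻¹ + (x + y + 1)⁻¹ + (x + z + 1)⁻¹ + (y + z + 1)⁻¹ - (x + y + z + 1)⁻¹ := ⟨_, rfl⟩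
  obtain ⟨h1, h2⟩ := Pool.Agent.Lib.helper3.ExpMax.main hx hy hz S hS
  have e4 : (d * x + d * y)⁻¹ = d⁻¹ * (x + y)⁻¹ := by rw [← mul_inv]; congr 1; ring
  have e5 : (d * x + d * z)⁻¹ = d⁻¹ * (x + z)⁻¹ := by rw [← mul_inv]; congr 1; ring
  have e6 : (d * x + d)⁻¹ = d⁻¹ * (x + 1)⁻¹ := by rw [← mul_inv]; congr 1; ring
  have e7 : (d * y + d * z)⁻¹ = d⁻¹ * (y + z)⁻¹ := by rw [← mul_inv]; congr 1; ring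
  have e8 : (d * y + d)⁻¹ = d⁻¹ * (y + 1)⁻¹ := by rw [← mul_inv]; congr 1; ring
  have e9 : (d * z + d)⁻¹ = d⁻¹ * (z + 1)⁻¹ := by rw [← mul_inv]; congr 1; ring
  have e10 : (d * x + d * y + d * z)⁻¹ = d⁻¹ * (x + y + z)⁻¹ := by rw [← mul_inv]; congr 1; ring
  have e11 : (d * x + d * y + d)⁻¹ = d⁻¹ * (x + y + 1)⁻¹ := by rw [← mul_inv]; congr 1; ring
  have e12 : (d * x + d * z + d)⁻¹ = d⁻¹ * (x + z + 1)⁻¹ := by rw [← mul_inv]; congr 1; ring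
  have e13 : (d * y + d * z + d)⁻¹ = d⁻¹ * (y + z + 1)⁻¹ := by rw [← mul_inv]; congr 1; ring
  have e14 : (d * x + d * y + d * z + d)⁻¹ = d⁻¹ * (x + y + z + 1)⁻¹ := by rw [← mul_inv]; congr 1; ring
  have hi : 0 < d⁻¹ := inv_pos.2 hd
  calc _ ≤ d⁻¹ * S := by
        refine Real.sqrt_le_iff.2 ⟨mul_nonneg hi.le h1, ?_⟩
        have := mul_le_mul_of_nonneg_left h2 (sq_nonneg d⁻¹)
        rw [mul_pow d⁻¹ S]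
        refine le_of_eq_of_le ?_ this
        field_simp
    _ = _ := by
        rw [e4, e5, e6, e7, e8, e9, e10, e11, e12, e13, e14, mul_inv d x, mul_inv d y, mul_inv d z, hS]
        ring

end Pool.Agent.Results.MP_2ee812_an.Four
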